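import Mathlib

/-!
# Expanding sets support KMF means

Let `G` be a discrete abelian group (written multiplicatively).  We prove that every
set `S` which meets every almost Bohr set supports a KMF mean.
-/

set_option linter.unusedSectionVars false

open MeasureTheory Filter Topology
open scoped BoundedContinuousFunction

namespace Pool.Agent.Results.MP_49446c_co.KMFMeans

noncomputable section

/-- A mean on the discrete group `G`: a positive linear functional on the space of bounded
real functions on `G` which takes the value `1` at the constant function `1`. -/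
structure Mean (G : Type*) [TopologicalSpace G] where
  /-- the underlying linear functional -/
  toFun : (G →ᵇ ℝ) →ₗ[ℝ] ℝ
  /-- positivity -/
  nonneg : ∀ f : G →ᵇ ℝ, (∀ g, 0 ≤ f g) → 0 ≤ toFun f
  /-- normalisation -/
  one : toFun 1 = 1

variable {G : Type*} [CommGroup G] [TopologicalSpace G] [DiscreteTopology G]

/-- The translate `x ↦ f (x * g)` of a bounded function. -/
def translate (g : G) (f : G →ᵇ ℝ) : G →ᵇ ℝ :=
  f.compContinuous ⟨fun x => x * g, continuous_of_discreteTopology⟩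

/-- Invariance of a mean under all translations. -/
def Mean.Invariant (m : Mean G) : Prop :=
  ∀ (g : G) (f : G →ᵇ ℝ), m.toFun (translate g f) = m.toFun f

/-- The indicator function of a subset of `G`, as a bounded function. -/
def ind (A : Set G) : G →ᵇ ℝ :=
  BoundedContinuousFunction.ofNormedAddCommGroupDiscrete (A.indicator (fun _ => (1 : ℝ))) 1
    (by
      intro x
      by_cases hx : x ∈ A
      · simp [hx]
      · simp [hx])

/-- `m` is supported on `S` if `m(1_S) = 1`. -/
def Mean.SupportedOn (m : Mean G) (S : Set G) : Prop := m.toFun (ind S) = 1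

/-- Upper Banach density: the supremum of `m(1_A)` over all invariant means `m`. -/
def upperBanachDensity (A : Set G) : ℝ :=
  sSup {x : ℝ | ∃ m : Mean G, m.Invariant ∧ x = m.toFun (ind A)}

/-- Bohr sets `{g : |χ_j(g) - 1| < ε, j = 1, …, k}`. -/
def IsBohrSet (B : Set G) : Prop :=
  ∃ (k : ℕ) (χ : Fin k → PontryaginDual G) (ε : ℝ), 0 < ε ∧
    B = {g : G | ∀ j, ‖((χ j g : Circle) : ℂ) - 1‖ < ε}

/-- Almost Bohr sets: `B \ E` with `B` a Bohr set and `d*(E) = 0`. -/
def IsAlmostBohrSet (A : Set G) : Prop :=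
  ∃ B E : Set G, IsBohrSet B ∧ upperBanachDensity E = 0 ∧ A = B \ E

/-- `S` is `(𝒜, ℬ)`-expanding: it meets every almost Bohr set. -/
def IsExpanding (S : Set G) : Prop :=
  ∀ A : Set G, IsAlmostBohrSet A → (S ∩ A).Nonempty

section measure

variable [MeasurableSpace (PontryaginDual G)]

/-- The Fourier transform of the complex measure `f dμ`, as a function on `G`:
`g ↦ ∫ conj (χ g) f(χ) dμ(χ)`. -/
def fourier (μ : Measure (PontryaginDual G)) (f : PontryaginDual G → ℂ) (g : G) : ℂ :=
  ∫ χ, (starRingEnd ℂ) ((χ g : Circle) : ℂ) * f χ ∂μ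

/-- The bounded function `g ↦ |(f dμ)^(g)|`. -/
def absFourier (μ : Measure (PontryaginDual G)) (f : PontryaginDual G → ℂ) : G →ᵇ ℝ :=
  BoundedContinuousFunction.ofNormedAddCommGroupDiscrete (fun g => ‖fourier μ f g‖)
    (∫ χ, ‖f χ‖ ∂μ)
    (by
      intro g
      rw [Real.norm_eq_abs, abs_of_nonneg (norm_nonneg _)]
      refine (norm_integral_le_integral_norm _).trans (le_of_eq ?_)
      refine integral_congr_ae (Eventually.of_forall fun χ => ?_)
      have : ‖((χ g : Circle) : ℂ)‖ = 1 := Circle.norm_coe _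
      simp [this])

/-- `m` annihilates continuous measures: `m(|ν^|) = 0` for every finite atomless regular
Borel measure `ν` on the dual group.  We allow all complex measures `ν = f dμ`, where `μ` is a
finite atomless regular positive Borel measure and `f` is `μ`-integrable (by polar decomposition
these are all atomless regular complex measures; `f = 1` gives the positive ones). -/
def Mean.AnnihilatesContinuousMeasures (m : Mean G) : Prop :=
  ∀ (μ : Measure (PontryaginDual G)), IsFiniteMeasure μ → μ.Regular → (∀ χ, μ {χ} = 0) →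
    ∀ f : PontryaginDual G → ℂ, Integrable f μ → m.toFun (absFourier μ f) = 0

/-- `m` massively accumulates at `0` in `bG`: `m(1_B) > 0` for every Bohr set `B`. -/
def Mean.MassivelyAccumulates (m : Mean G) : Prop :=
  ∀ B : Set G, IsBohrSet B → 0 < m.toFun (ind B)

/-- KMF means. -/
def Mean.IsKMF (m : Mean G) : Prop :=
  m.AnnihilatesContinuousMeasures ∧ m.MassivelyAccumulates

/-- `S` supports a KMF mean. -/
def SupportsKMF (S : Set G) : Prop := ∃ m : Mean G, m.SupportedOn S ∧ m.IsKMF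

end measure

/-! ### Basic properties of means -/

@[simp] lemma ind_apply (A : Set G) (x : G) : ind A x = A.indicator (fun _ => (1 : ℝ)) x := rfl

@[simp] lemma translate_apply (g x : G) (f : G →ᵇ ℝ) : translate g f x = f (x * g) := rfl

lemma Mean.mono (m : Mean G) {f h : G →ᵇ ℝ} (hfh : ∀ x, f x ≤ h x) :
    m.toFun f ≤ m.toFun h := by
  have := m.nonneg (h - f) (fun x => by simpa using hfh x)
  rw [map_sub] at this
  linarith

lemma Mean.const (m : Mean G) (c : ℝ) : m.toFun (BoundedContinuousFunction.const G c) = c := by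
  have : BoundedContinuousFunction.const G c = c • (1 : G →ᵇ ℝ) := by
    ext x; simp
  rw [this, map_smul, m.one]; simp

lemma Mean.le_of_le (m : Mean G) {f : G →ᵇ ℝ} {c : ℝ} (h : ∀ x, f x ≤ c) : m.toFun f ≤ c := by
  rw [← m.const c]
  exact m.mono (fun x => by simpa using h x)

lemma Mean.ge_of_ge (m : Mean G) {f : G →ᵇ ℝ} {c : ℝ} (h : ∀ x, c ≤ f x) : c ≤ m.toFun f := by
  rw [← m.const c]
  exact m.mono (fun x => by simpa using h x)

lemma Mean.abs_le (m : Mean G) (f : G →ᵇ ℝ) : |m.toFun f| ≤ ‖f‖ := by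
  rw [_root_.abs_le]
  constructor
  · exact m.ge_of_ge (fun x => by
      have := f.norm_coe_le_norm x
      rw [Real.norm_eq_abs, _root_.abs_le] at this
      exact this.1)
  · exact m.le_of_le (fun x => by
      have := f.norm_coe_le_norm x
      rw [Real.norm_eq_abs, _root_.abs_le] at this
      exact this.2)

/-- If the averages of `f` over a finite weighted family of translates are at most `c`
everywhere, then `m f ≤ c` for invariant `m`. -/
lemma Mean.Invariant.le_of_average {m : Mean G} (hm : m.Invariant) {ι : Type} [Fintype ι]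
    (w : ι → ℝ) (h : ι → G) (hw : ∑ i, w i = 1) (f : G →ᵇ ℝ) (c : ℝ)
    (hc : ∀ x, ∑ i, w i * f (x * h i) ≤ c) : m.toFun f ≤ c := by
  have h1 : m.toFun (∑ i, w i • translate (h i) f) = m.toFun f := by
    rw [map_sum]
    simp_rw [map_smul, hm _ f, smul_eq_mul]
    rw [← Finset.sum_mul, hw, one_mul]
  rw [← h1]
  refine m.le_of_le (fun x => ?_)
  simpa using hc x

/-! ### Small trigonometric averages -/

lemma exists_average_nhds (θ : PontryaginDual G) (hθ : θ ≠ 1) {ε : ℝ} (hε : 0 < ε) :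
    ∃ t ∈ 𝓝 θ, ∃ (ι : Type) (_ : Fintype ι) (w : ι → ℝ) (h : ι → G),
      (∀ i, 0 ≤ w i) ∧ ∑ i, w i = 1 ∧
      ∀ ψ ∈ t, ‖∑ i, (w i : ℂ) * ((ψ (h i) : Circle) : ℂ)‖ ≤ ε := by
  obtain ⟨h, hh⟩ : ∃ h : G, θ h ≠ 1 := by
    by_contra hcon
    push Not at hcon
    exact hθ (PontryaginDual.ext fun a => by simpa using hcon a)
  set z : ℂ := ((θ h : Circle) : ℂ) with hz
  have hz1 : z ≠ 1 := by
    intro h'
    exact hh (Circle.ext (h'.trans Circle.coe_one.symm))
  have hz1' : 0 < ‖z - 1‖ := norm_pos_iff.mpr (sub_ne_zero.mpr hz1)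
  obtain ⟨N, hN⟩ := exists_nat_gt (2 / (ε * ‖z - 1‖))
  have hNpos : 0 < (N : ℝ) := lt_of_le_of_lt (by positivity) hN
  have hsum : ‖∑ i : Fin N, ((1 / N : ℝ) : ℂ) * ((θ (h ^ (i : ℕ)) : Circle) : ℂ)‖ < ε := by
    have e1 : ∑ i : Fin N, ((1 / N : ℝ) : ℂ) * ((θ (h ^ (i : ℕ)) : Circle) : ℂ) =
        ((1 / N : ℝ) : ℂ) * ((z ^ N - 1) / (z - 1)) := by
      rw [← Finset.mul_sum, ← geom_sum_eq hz1, Finset.sum_range]
      congr 1
      refine Finset.sum_congr rfl fun i _ => ?_
      rw [map_pow, Circle.coe_pow]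
    rw [e1, norm_mul, norm_div]
    have h2 : ‖z ^ N - 1‖ ≤ 2 := by
      refine (norm_sub_le _ _).trans ?_
      rw [norm_pow, hz, Circle.norm_coe]
      simp
      norm_num
    have h3 : ‖((1 / N : ℝ) : ℂ)‖ = 1 / N := by
      rw [Complex.norm_real, Real.norm_eq_abs, abs_of_nonneg (by positivity)]
    rw [h3]
    have h4 : 1 / (N : ℝ) * (‖z ^ N - 1‖ / ‖z - 1‖) ≤ 1 / (N : ℝ) * (2 / ‖z - 1‖) := by
      gcongr
    refine h4.trans_lt ?_
    rw [div_lt_iff₀ (by positivity)] at hN
    rw [div_mul_div_comm, one_mul, div_lt_iff₀ (by positivity)]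
    nlinarith
  have hcont : Continuous fun ψ : PontryaginDual G =>
      ‖∑ i : Fin N, ((1 / N : ℝ) : ℂ) * ((ψ (h ^ (i : ℕ)) : Circle) : ℂ)‖ := by
    have hev : ∀ g : G, Continuous fun ψ : PontryaginDual G => ψ g := by
      intro g
      have : Continuous fun ψ : G →ₜ* Circle => ψ g :=
        (ContinuousEvalConst.continuous_eval_const g)
      exact this
    refine continuous_norm.comp (continuous_finsetSum _ fun i _ => ?_)
    exact continuous_const.mul (continuous_subtype_val.comp (hev _))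
  refine ⟨_, (isOpen_lt hcont continuous_const).mem_nhds hsum, Fin N, inferInstance,
    fun _ => 1 / N, fun i => h ^ (i : ℕ), fun _ => by positivity, ?_, ?_⟩
  · simp
    field_simp
  · intro ψ hψ
    exact le_of_lt hψ

lemma norm_average_le_one {ι : Type} [Fintype ι] (w : ι → ℝ) (h : ι → G)
    (hw0 : ∀ i, 0 ≤ w i) (hw : ∑ i, w i = 1) (ψ : PontryaginDual G) :
    ‖∑ i, (w i : ℂ) * ((ψ (h i) : Circle) : ℂ)‖ ≤ 1 := by
  refine (norm_sum_le _ _).trans ?_
  rw [← hw]
  refine Finset.sum_le_sum fun i _ => ?_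
  rw [norm_mul, Circle.norm_coe]
  simp [abs_of_nonneg (hw0 i)]

/-- Off any neighbourhood of the trivial character some trigonometric average is small. -/
lemma exists_average (W : Set (PontryaginDual G)) (hW : IsOpen W) (h1 : (1 : PontryaginDual G) ∈ W)
    {ε : ℝ} (hε : 0 < ε) :
    ∃ (ι : Type) (_ : Fintype ι) (w : ι → ℝ) (h : ι → G),
      (∀ i, 0 ≤ w i) ∧ ∑ i, w i = 1 ∧
      ∀ ψ ∉ W, ‖∑ i, (w i : ℂ) * ((ψ (h i) : Circle) : ℂ)‖ ≤ ε := by
  have hK : IsCompact Wᶜ := hW.isClosed_compl.isCompact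
  have := hK.induction_on
    (p := fun s : Set (PontryaginDual G) => ∃ (ι : Type) (_ : Fintype ι) (w : ι → ℝ) (h : ι → G),
      (∀ i, 0 ≤ w i) ∧ ∑ i, w i = 1 ∧
      ∀ ψ ∈ s, ‖∑ i, (w i : ℂ) * ((ψ (h i) : Circle) : ℂ)‖ ≤ ε)
    ⟨Unit, inferInstance, fun _ => 1, fun _ => 1, by simp, by simp, by simp⟩
    (by
      rintro s t hst ⟨ι, _, w, h, hw0, hw, hle⟩
      exact ⟨ι, _, w, h, hw0, hw, fun ψ hψ => hle ψ (hst hψ)⟩)
    (by
      rintro s t ⟨ι, _, w, h, hw0, hw, hle⟩ ⟨κ, _, v, k, hv0, hv, hle'⟩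
      refine ⟨ι × κ, inferInstance, fun p => w p.1 * v p.2, fun p => h p.1 * k p.2,
        fun p => mul_nonneg (hw0 _) (hv0 _), ?_, ?_⟩
      · rw [Fintype.sum_prod_type]
        simp_rw [← Finset.mul_sum, hv, mul_one, hw]
      · intro ψ hψ
        have e : ∑ p : ι × κ, ((w p.1 * v p.2 : ℝ) : ℂ) * ((ψ (h p.1 * k p.2) : Circle) : ℂ) =
            (∑ i, (w i : ℂ) * ((ψ (h i) : Circle) : ℂ)) *
              ∑ j, (v j : ℂ) * ((ψ (k j) : Circle) : ℂ) := by
          rw [Fintype.sum_prod_type, Finset.sum_mul_sum]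
          refine Finset.sum_congr rfl fun i _ => Finset.sum_congr rfl fun j _ => ?_
          rw [map_mul, Circle.coe_mul]
          push_cast
          ring
        rw [e, norm_mul]
        rcases hψ with hψ | hψ
        · calc _ ≤ ε * 1 := mul_le_mul (hle ψ hψ) (norm_average_le_one v k hv0 hv ψ)
                (norm_nonneg _) hε.le
            _ = ε := mul_one _
        · calc _ ≤ 1 * ε := mul_le_mul (norm_average_le_one w h hw0 hw ψ) (hle' ψ hψ)
                (norm_nonneg _) zero_le_one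
            _ = ε := one_mul _)
    (by
      intro θ hθ
      have hθ1 : θ ≠ 1 := by
        rintro rfl
        exact hθ h1
      obtain ⟨t, ht, hp⟩ := exists_average_nhds θ hθ1 hε
      exact ⟨t, mem_nhdsWithin_of_mem_nhds ht, hp⟩)
  obtain ⟨ι, _, w, h, hw0, hw, hle⟩ := this
  exact ⟨ι, _, w, h, hw0, hw, fun ψ hψ => hle ψ hψ⟩

section measure

variable [MeasurableSpace (PontryaginDual G)] [BorelSpace (PontryaginDual G)]

/-- Uniformly small neighbourhoods for an atomless regular measure. -/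
lemma exists_uniform_nhd (μ : Measure (PontryaginDual G)) [IsFiniteMeasure μ] [μ.Regular]
    (hμ : ∀ χ, μ {χ} = 0) {δ : ENNReal} (hδ : δ ≠ 0) :
    ∃ W : Set (PontryaginDual G), IsOpen W ∧ (1 : PontryaginDual G) ∈ W ∧
      ∀ χ, μ {ψ | χ⁻¹ * ψ ∈ W} ≤ δ := by
  have := (isCompact_univ (X := PontryaginDual G)).induction_on
    (p := fun s : Set (PontryaginDual G) => ∃ W : Set (PontryaginDual G), IsOpen W ∧
      (1 : PontryaginDual G) ∈ W ∧ ∀ χ ∈ s, μ {ψ | χ⁻¹ * ψ ∈ W} ≤ δ)
    ⟨Set.univ, isOpen_univ, trivial, by simp⟩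
    (by
      rintro s t hst ⟨W, hW, h1, h⟩
      exact ⟨W, hW, h1, fun χ hχ => h χ (hst hχ)⟩)
    (by
      rintro s t ⟨W, hW, h1, h⟩ ⟨W', hW', h1', h'⟩
      refine ⟨W ∩ W', hW.inter hW', ⟨h1, h1'⟩, fun χ hχ => ?_⟩
      rcases hχ with hχ | hχ
      · exact (measure_mono (fun ψ hψ => hψ.1)).trans (h χ hχ)
      · exact (measure_mono (fun ψ hψ => hψ.2)).trans (h' χ hχ))
    (by
      intro χ _
      obtain ⟨U, hU, hUo, hUδ⟩ := Set.exists_isOpen_lt_of_lt ({χ} : Set (PontryaginDual G)) δ
        (by rw [hμ χ]; exact pos_iff_ne_zero.mpr hδ)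
      have hmem : U ∈ 𝓝 (χ * 1 * 1) := by
        simpa using hUo.mem_nhds (hU rfl)
      have hcont : Continuous fun p : PontryaginDual G × PontryaginDual G => χ * p.1 * p.2 := by
        fun_prop
      have hpre : (fun p : PontryaginDual G × PontryaginDual G => χ * p.1 * p.2) ⁻¹' U ∈
          𝓝 ((1 : PontryaginDual G), (1 : PontryaginDual G)) :=
        hcont.continuousAt.preimage_mem_nhds hmem
      rw [nhds_prod_eq, mem_prod_same_iff] at hpre
      obtain ⟨V, hV, hVU⟩ := hpre
      obtain ⟨W, hWV, hWo, hW1⟩ := mem_nhds_iff.mp hV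
      refine ⟨{χ' | χ⁻¹ * χ' ∈ W}, ?_, W, hWo, hW1, ?_⟩
      · refine mem_nhdsWithin_of_mem_nhds (IsOpen.mem_nhds ?_ ?_)
        · exact hWo.preimage (by fun_prop)
        · simpa using hW1
      · intro χ' hχ'
        refine (measure_mono ?_).trans hUδ.le
        intro ψ hψ
        have := hVU (Set.mk_mem_prod (hWV hχ') (hWV hψ))
        simpa using this)
  obtain ⟨W, hW, h1, h⟩ := this
  exact ⟨W, hW, h1, fun χ => h χ trivial⟩


lemma continuous_char (g : G) :
    Continuous fun χ : PontryaginDual G => ((χ g : Circle) : ℂ) := by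
  have : Continuous fun χ : G →ₜ* Circle => χ g :=
    (ContinuousEvalConst.continuous_eval_const g)
  exact continuous_subtype_val.comp this

lemma integrable_char_mul {μ : Measure (PontryaginDual G)} {f : PontryaginDual G → ℂ}
    (hf : Integrable f μ) (g : G) :
    Integrable (fun χ => (starRingEnd ℂ) ((χ g : Circle) : ℂ) * f χ) μ := by
  refine hf.bdd_mul (c := 1) ?_ (Eventually.of_forall fun χ => ?_)
  · exact (Complex.continuous_conj.comp (continuous_char g)).aestronglyMeasurable
  · rw [RCLike.norm_conj, Circle.norm_coe]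

/-- The key estimate: averages of `|ν^|^2` over suitable translates are uniformly small. -/
lemma average_bound (μ : Measure (PontryaginDual G)) {f : PontryaginDual G → ℂ}
    (hf : Integrable f μ) {ι : Type} [Fintype ι] (w : ι → ℝ) (h : ι → G) (c : ℝ)
    (hc : ∀ χ : PontryaginDual G,
      ∫ ψ, ‖f ψ‖ * ‖∑ i, (w i : ℂ) * (((χ⁻¹ * ψ) (h i) : Circle) : ℂ)‖ ∂μ ≤ c) (g : G) :
    ∑ i, w i * ‖fourier μ f (g * h i)‖ ^ 2 ≤ c * ∫ χ, ‖f χ‖ ∂μ := by
  -- the inner integrals
  set inner : PontryaginDual G → ℂ := fun χ =>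
    ∑ i, (w i : ℂ) * (starRingEnd ℂ) ((χ (h i) : Circle) : ℂ) *
      (starRingEnd ℂ) (fourier μ f (g * h i)) with hinner
  have hinner_eq : ∀ χ, inner χ = ∫ ψ, ((ψ g : Circle) : ℂ) * (starRingEnd ℂ) (f ψ) *
      ∑ i, (w i : ℂ) * (((χ⁻¹ * ψ) (h i) : Circle) : ℂ) ∂μ := by
    intro χ
    simp_rw [Finset.mul_sum]
    rw [integral_finsetSum]
    · refine Finset.sum_congr rfl fun i _ => ?_
      rw [fourier, ← integral_conj, ← integral_const_mul]
      refine integral_congr_ae (Eventually.of_forall fun ψ => ?_)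
      have e1 : (((χ⁻¹ * ψ) (h i) : Circle) : ℂ) =
          (starRingEnd ℂ) ((χ (h i) : Circle) : ℂ) * ((ψ (h i) : Circle) : ℂ) := by
        have : (χ⁻¹ * ψ) (h i) = (χ (h i))⁻¹ * ψ (h i) := rfl
        rw [this, Circle.coe_mul, Circle.coe_inv_eq_conj]
      have e2 : ((ψ (g * h i) : Circle) : ℂ) =
          ((ψ g : Circle) : ℂ) * ((ψ (h i) : Circle) : ℂ) := by
        rw [map_mul, Circle.coe_mul]
      simp only [e1, e2, RingHom.map_mul, Complex.conj_conj]
      ring
    · intro i _
      have h1 : Integrable (fun ψ => (starRingEnd ℂ) (f ψ)) μ := by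
        exact (LinearIsometryEquiv.integrable_comp_iff (Complex.conjLIE)).2 hf
      have h2 := h1.bdd_mul (c := |w i|)
        (f := fun ψ => ((ψ g : Circle) : ℂ) * ((w i : ℂ) * (((χ⁻¹ * ψ) (h i) : Circle) : ℂ)))
        (by
          have c1 := continuous_char g
          have c2 : Continuous fun ψ : PontryaginDual G =>
              (((χ⁻¹ * ψ) (h i) : Circle) : ℂ) :=
            (continuous_char (h i)).comp (continuous_const.mul continuous_id)
          exact (c1.mul (continuous_const.mul c2)).aestronglyMeasurable)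
        (Eventually.of_forall fun ψ => by
          rw [norm_mul, norm_mul, Circle.norm_coe, Circle.norm_coe]
          simp)
      refine h2.congr (Eventually.of_forall fun ψ => ?_)
      simp only
      ring
  have hinner_le : ∀ χ, ‖inner χ‖ ≤ c := by
    intro χ
    rw [hinner_eq]
    refine (norm_integral_le_integral_norm _).trans ((le_of_eq ?_).trans (hc χ))
    refine integral_congr_ae (Eventually.of_forall fun ψ => ?_)
    simp only [norm_mul, RCLike.norm_conj, Circle.norm_coe, one_mul]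
  have hmain : ((∑ i, w i * ‖fourier μ f (g * h i)‖ ^ 2 : ℝ) : ℂ) =
      ∫ χ, ((starRingEnd ℂ) ((χ g : Circle) : ℂ) * f χ) * inner χ ∂μ := by
    simp_rw [hinner, Finset.mul_sum]
    rw [integral_finsetSum]
    · push_cast
      refine Finset.sum_congr rfl fun i _ => ?_
      have e3 : ((‖fourier μ f (g * h i)‖ : ℂ)) ^ 2 =
          fourier μ f (g * h i) * (starRingEnd ℂ) (fourier μ f (g * h i)) := by
        rw [Complex.mul_conj, Complex.normSq_eq_norm_sq]
        push_cast
        rfl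
      rw [e3]
      have e4 : ∀ χ : PontryaginDual G,
          (starRingEnd ℂ) ((χ g : Circle) : ℂ) * f χ *
            ((w i : ℂ) * (starRingEnd ℂ) ((χ (h i) : Circle) : ℂ) *
              (starRingEnd ℂ) (fourier μ f (g * h i))) =
          ((w i : ℂ) * (starRingEnd ℂ) (fourier μ f (g * h i))) *
            ((starRingEnd ℂ) ((χ (g * h i) : Circle) : ℂ) * f χ) := by
        intro χ
        rw [map_mul, Circle.coe_mul, map_mul]
        ring
      simp_rw [e4]
      rw [integral_const_mul]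
      rw [fourier]
      ring
    · intro i _
      have e4 : ∀ χ : PontryaginDual G,
          (starRingEnd ℂ) ((χ g : Circle) : ℂ) * f χ *
            ((w i : ℂ) * (starRingEnd ℂ) ((χ (h i) : Circle) : ℂ) *
              (starRingEnd ℂ) (fourier μ f (g * h i))) =
          ((w i : ℂ) * (starRingEnd ℂ) (fourier μ f (g * h i))) *
            ((starRingEnd ℂ) ((χ (g * h i) : Circle) : ℂ) * f χ) := by
        intro χ
        rw [map_mul, Circle.coe_mul, map_mul]
        ring
      simp_rw [e4]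
      exact (integrable_char_mul hf _).const_mul _
  have habs : ∑ i, w i * ‖fourier μ f (g * h i)‖ ^ 2 ≤
      ‖((∑ i, w i * ‖fourier μ f (g * h i)‖ ^ 2 : ℝ) : ℂ)‖ := by
    rw [Complex.norm_real]
    exact le_abs_self _
  refine habs.trans ?_
  rw [hmain, ← integral_const_mul]
  refine norm_integral_le_of_norm_le (hf.norm.const_mul c) (Eventually.of_forall fun χ => ?_)
  rw [norm_mul, norm_mul, RCLike.norm_conj, Circle.norm_coe, one_mul, mul_comm]
  exact mul_le_mul_of_nonneg_right (hinner_le χ) (norm_nonneg _)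


/-- For a finite atomless regular measure and an integrable density, the inner integrals in
`average_bound` can be made arbitrarily small. -/
lemma exists_small_average (μ : Measure (PontryaginDual G)) [IsFiniteMeasure μ] [μ.Regular]
    (hμ : ∀ χ, μ {χ} = 0) {f : PontryaginDual G → ℂ} (hf : Integrable f μ) {ε : ℝ}
    (hε : 0 < ε) :
    ∃ (ι : Type) (_ : Fintype ι) (w : ι → ℝ) (h : ι → G), ∑ i, w i = 1 ∧
      ∀ χ : PontryaginDual G,
        ∫ ψ, ‖f ψ‖ * ‖∑ i, (w i : ℂ) * (((χ⁻¹ * ψ) (h i) : Circle) : ℂ)‖ ∂μ ≤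
          ε + ε * ∫ ψ, ‖f ψ‖ ∂μ := by
  have hfin : ∫⁻ ψ, ‖f ψ‖ₑ ∂μ ≠ ⊤ := hf.2.ne
  obtain ⟨δ, hδ, hδ'⟩ := exists_pos_setLIntegral_lt_of_measure_lt hfin
    (ε := ENNReal.ofReal ε) (by simpa using hε)
  obtain ⟨δ', hδ'0, hδ'δ⟩ := exists_between hδ
  obtain ⟨W, hW, h1, hWμ⟩ := exists_uniform_nhd μ hμ hδ'0.ne'
  obtain ⟨ι, _, w, h, hw0, hw, hle⟩ := exists_average W hW h1 hε
  refine ⟨ι, _, w, h, hw, fun χ => ?_⟩
  set A : Set (PontryaginDual G) := {ψ | χ⁻¹ * ψ ∈ W} with hA
  have hAo : IsOpen A := hW.preimage (continuous_const.mul continuous_id)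
  have hAm : MeasurableSet A := hAo.measurableSet
  have hcont : Continuous fun ψ : PontryaginDual G =>
      ‖∑ i, (w i : ℂ) * (((χ⁻¹ * ψ) (h i) : Circle) : ℂ)‖ := by
    refine continuous_norm.comp (continuous_finsetSum _ fun i _ => ?_)
    exact continuous_const.mul ((continuous_char (h i)).comp (continuous_const.mul continuous_id))
  have hint : Integrable (fun ψ => ‖f ψ‖ *
      ‖∑ i, (w i : ℂ) * (((χ⁻¹ * ψ) (h i) : Circle) : ℂ)‖) μ := by
    have := hf.norm.bdd_mul (c := 1) hcont.aestronglyMeasurable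
      (Eventually.of_forall fun ψ => by
        rw [norm_norm]
        exact norm_average_le_one w h hw0 hw _)
    refine this.congr (Eventually.of_forall fun ψ => ?_)
    simp only
    ring
  rw [← integral_add_compl hAm hint]
  refine add_le_add ?_ ?_
  · have hb1 : ∫ ψ in A, ‖f ψ‖ * ‖∑ i, (w i : ℂ) * (((χ⁻¹ * ψ) (h i) : Circle) : ℂ)‖ ∂μ ≤
        ∫ ψ in A, ‖f ψ‖ ∂μ := by
      refine integral_mono hint.integrableOn hf.norm.integrableOn fun ψ => ?_
      simp only
      calc _ ≤ ‖f ψ‖ * 1 := mul_le_mul_of_nonneg_left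
            (norm_average_le_one w h hw0 hw _) (norm_nonneg _)
        _ = _ := mul_one _
    refine hb1.trans ?_
    rw [integral_norm_eq_lintegral_enorm hf.aestronglyMeasurable.restrict]
    refine ENNReal.toReal_le_of_le_ofReal hε.le ?_
    exact (hδ' A ((hWμ χ).trans_lt hδ'δ)).le
  · have hb2 : ∫ ψ in Aᶜ, ‖f ψ‖ * ‖∑ i, (w i : ℂ) * (((χ⁻¹ * ψ) (h i) : Circle) : ℂ)‖ ∂μ ≤
        ∫ ψ in Aᶜ, ‖f ψ‖ * ε ∂μ := by
      refine setIntegral_mono_on hint.integrableOn (hf.norm.mul_const ε).integrableOn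
        hAm.compl fun ψ hψ => ?_
      exact mul_le_mul_of_nonneg_left (hle _ hψ) (norm_nonneg _)
    refine hb2.trans ?_
    rw [integral_mul_const, mul_comm]
    refine mul_le_mul_of_nonneg_left ?_ hε.le
    exact setIntegral_le_integral hf.norm (Eventually.of_forall fun ψ => norm_nonneg _)

/-- Wiener lemma for invariant means, squared form. -/
lemma Mean.Invariant.sq_le {m : Mean G} (hm : m.Invariant)
    (μ : Measure (PontryaginDual G)) [IsFiniteMeasure μ] [μ.Regular]
    (hμ : ∀ χ, μ {χ} = 0) {f : PontryaginDual G → ℂ} (hf : Integrable f μ) {ε : ℝ}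
    (hε : 0 < ε) :
    m.toFun (absFourier μ f * absFourier μ f) ≤ ε := by
  set I := ∫ ψ, ‖f ψ‖ ∂μ with hI
  have hI0 : 0 ≤ I := integral_nonneg fun _ => norm_nonneg _
  obtain ⟨η, hη, hηε⟩ : ∃ η > 0, (η + η * I) * I ≤ ε := by
    refine ⟨ε / ((1 + I) * (1 + I)), by positivity, ?_⟩
    have : (ε / ((1 + I) * (1 + I)) + ε / ((1 + I) * (1 + I)) * I) * I =
        ε * (I / (1 + I)) := by
      field_simp
    rw [this]
    have h2 : I / (1 + I) ≤ 1 := by
      rw [div_le_one (by positivity)]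
      linarith
    nlinarith
  obtain ⟨ι, _, w, h, hw, hc⟩ := exists_small_average μ hμ hf hη
  refine (hm.le_of_average w h hw _ ((η + η * I) * I) fun x => ?_).trans hηε
  have := average_bound μ hf w h (η + η * I) hc x
  refine le_trans (le_of_eq ?_) this
  refine Finset.sum_congr rfl fun i _ => ?_
  rw [pow_two]
  rfl

/-- Wiener lemma for invariant means. -/
lemma Mean.Invariant.annihilates {m : Mean G} (hm : m.Invariant) :
    m.AnnihilatesContinuousMeasures := by
  intro μ h1 h2 hμ f hf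
  have hsq : m.toFun (absFourier μ f * absFourier μ f) ≤ 0 :=
    le_of_forall_pos_le_add fun ε hε => by
      simpa using hm.sq_le μ hμ hf hε
  have hpos : 0 ≤ m.toFun (absFourier μ f) := m.nonneg _ fun g => norm_nonneg (fourier μ f g)
  refine le_antisymm ?_ hpos
  refine le_of_forall_pos_le_add fun ε hε => ?_
  rw [zero_add]
  have hpt : ∀ g : G, absFourier μ f g ≤
      (BoundedContinuousFunction.const G ε + ε⁻¹ • (absFourier μ f * absFourier μ f)) g := by
    intro g
    simp only [BoundedContinuousFunction.coe_add, BoundedContinuousFunction.coe_smul,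
      BoundedContinuousFunction.coe_mul, Pi.add_apply, Pi.mul_apply,
      BoundedContinuousFunction.const_apply, smul_eq_mul]
    set a := absFourier μ f g
    have : a * ε ≤ ε * ε + a * a := by
      nlinarith [sq_nonneg (a - ε), sq_nonneg a, sq_nonneg ε]
    have h3 : ε⁻¹ * (a * ε) ≤ ε⁻¹ * (ε * ε + a * a) :=
      mul_le_mul_of_nonneg_left this (inv_nonneg.mpr hε.le)
    have h4 : ε⁻¹ * (a * ε) = a := by field_simp
    have h5 : ε⁻¹ * (ε * ε + a * a) = ε + ε⁻¹ * (a * a) := by field_simp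
    linarith
  refine (m.mono hpt).trans ?_
  rw [map_add, m.const, map_smul, smul_eq_mul]
  have : ε⁻¹ * m.toFun (absFourier μ f * absFourier μ f) ≤ 0 :=
    mul_nonpos_of_nonneg_of_nonpos (inv_nonneg.mpr hε.le) hsq
  linarith

end measure

/-! ### Conditioning and limits of means -/

/-- Conditioning a mean on a set of positive measure. -/
def Mean.cond (m : Mean G) (A : Set G) (hA : 0 < m.toFun (ind A)) : Mean G where
  toFun := (m.toFun (ind A))⁻¹ • (m.toFun ∘ₗ LinearMap.mulRight ℝ (ind A))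
  nonneg := by
    intro f hf
    simp only [LinearMap.smul_apply, LinearMap.comp_apply, LinearMap.mulRight_apply, smul_eq_mul]
    refine mul_nonneg (inv_nonneg.mpr hA.le) (m.nonneg _ fun g => ?_)
    refine mul_nonneg (hf g) ?_
    by_cases hg : g ∈ A
    · simp [hg]
    · simp [hg]
  one := by
    simp only [LinearMap.smul_apply, LinearMap.comp_apply, LinearMap.mulRight_apply, smul_eq_mul,
      one_mul]
    exact inv_mul_cancel₀ hA.ne'

lemma Mean.cond_apply (m : Mean G) (A : Set G) (hA : 0 < m.toFun (ind A)) (f : G →ᵇ ℝ) :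
    (m.cond A hA).toFun f = (m.toFun (ind A))⁻¹ * m.toFun (f * ind A) := rfl

lemma Mean.cond_ind (m : Mean G) {A B : Set G} (hA : 0 < m.toFun (ind A)) (hAB : A ⊆ B) :
    (m.cond A hA).toFun (ind B) = 1 := by
  rw [m.cond_apply]
  have : ind B * ind A = ind A := by
    ext x
    by_cases hx : x ∈ A
    · simp [hx, hAB hx]
    · simp [hx]
  rw [this]
  exact inv_mul_cancel₀ hA.ne'

lemma Mean.cond_eq_zero (m : Mean G) {A : Set G} (hA : 0 < m.toFun (ind A)) {f : G →ᵇ ℝ}
    (hf : ∀ g, 0 ≤ f g) (h0 : m.toFun f = 0) : (m.cond A hA).toFun f = 0 := by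
  rw [m.cond_apply]
  have h1 : m.toFun (f * ind A) ≤ m.toFun f := by
    refine m.mono fun x => ?_
    by_cases hx : x ∈ A
    · simp [hx]
    · simpa [hx] using hf x
  have h2 : 0 ≤ m.toFun (f * ind A) := by
    refine m.nonneg _ fun x => ?_
    by_cases hx : x ∈ A
    · simpa [hx] using hf x
    · simp [hx]
  have : m.toFun (f * ind A) = 0 := le_antisymm (h1.trans h0.le) h2
  rw [this, mul_zero]

/-- Limits of means along ultrafilters exist. -/
lemma exists_limit_mean {I : Type*} (U : Ultrafilter I) (m : I → Mean G) :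
    ∃ M : Mean G, ∀ f : G →ᵇ ℝ, Tendsto (fun i => (m i).toFun f) U (𝓝 (M.toFun f)) := by
  have hlim : ∀ f : G →ᵇ ℝ, ∃ x : ℝ, Tendsto (fun i => (m i).toFun f) U (𝓝 x) := by
    intro f
    have hc : IsCompact (Set.Icc (-‖f‖) ‖f‖) := isCompact_Icc
    have hle : (U.map fun i => (m i).toFun f : Filter ℝ) ≤ 𝓟 (Set.Icc (-‖f‖) ‖f‖) := by
      rw [le_principal_iff]
      have : ∀ᶠ i in (U : Filter I), (m i).toFun f ∈ Set.Icc (-‖f‖) ‖f‖ :=
        Filter.Eventually.of_forall (fun i => _root_.abs_le.mp ((m i).abs_le f))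
      exact this
    obtain ⟨x, _, hx⟩ := hc.ultrafilter_le_nhds (U.map fun i => (m i).toFun f) hle
    exact ⟨x, hx⟩
  choose L hL using hlim
  have hadd : ∀ f g, L (f + g) = L f + L g := by
    intro f g
    refine tendsto_nhds_unique (hL (f + g)) ?_
    simp_rw [map_add]
    exact (hL f).add (hL g)
  have hsmul : ∀ (c : ℝ) f, L (c • f) = c • L f := by
    intro c f
    refine tendsto_nhds_unique (hL (c • f)) ?_
    simp_rw [map_smul]
    exact (hL f).const_smul c
  refine ⟨⟨⟨⟨L, hadd⟩, hsmul⟩, ?_, ?_⟩, hL⟩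
  · intro f hf
    exact ge_of_tendsto' (hL f) fun i => (m i).nonneg f hf
  · refine tendsto_nhds_unique (hL 1) ?_
    simp_rw [(m _).one]
    exact tendsto_const_nhds

lemma IsBohrSet.inter {B B' : Set G} (hB : IsBohrSet B) (hB' : IsBohrSet B') :
    ∃ C, IsBohrSet C ∧ C ⊆ B ∧ C ⊆ B' := by
  obtain ⟨k, χ, ε, hε, rfl⟩ := hB
  obtain ⟨k', χ', ε', hε', rfl⟩ := hB'
  refine ⟨_, ⟨k + k', Fin.append χ χ', min ε ε', lt_min hε hε', rfl⟩, ?_, ?_⟩
  · intro g hg j
    have := hg (Fin.castAdd k' j)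
    rw [Fin.append_left] at this
    exact this.trans_le (min_le_left _ _)
  · intro g hg j
    have := hg (Fin.natAdd k j)
    rw [Fin.append_right] at this
    exact this.trans_le (min_le_right _ _)

/-- If `S` is expanding, then for every Bohr set `B` some invariant mean charges `S ∩ B`. -/
lemma IsExpanding.exists_mean {S : Set G} (hS : IsExpanding S) {B : Set G} (hB : IsBohrSet B) :
    ∃ m : Mean G, m.Invariant ∧ 0 < m.toFun (ind (S ∩ B)) := by
  by_contra hcon
  push Not at hcon
  have hd : upperBanachDensity (S ∩ B) = 0 := by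
    have hz : ∀ x ∈ {x : ℝ | ∃ m : Mean G, m.Invariant ∧ x = m.toFun (ind (S ∩ B))}, x = 0 := by
      rintro x ⟨m, hm, rfl⟩
      refine le_antisymm (hcon m hm) (m.nonneg _ fun g => ?_)
      by_cases hg : g ∈ S ∩ B
      · simp [hg]
      · rw [ind_apply, Set.indicator_of_notMem hg]
    unfold upperBanachDensity
    rcases Set.eq_empty_or_nonempty
      {x : ℝ | ∃ m : Mean G, m.Invariant ∧ x = m.toFun (ind (S ∩ B))} with he | ⟨x, hx⟩
    · rw [he, Real.sSup_empty]
    · refine le_antisymm (csSup_le ⟨x, hx⟩ fun y hy => (hz y hy).le) ?_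
      have := le_csSup (a := x) ⟨0, fun y hy => (hz y hy).le⟩ hx
      rw [hz x hx] at this
      exact this
  obtain ⟨g, hgS, hgB, hgE⟩ := hS (B \ (S ∩ B)) ⟨B, S ∩ B, hB, hd, rfl⟩
  exact hgE ⟨hgS, hgB⟩

/-- **Main theorem.**  For every discrete abelian group `G`, every `(𝒜, ℬ)`-expanding set
`S ⊆ G` supports a KMF mean. -/
theorem result {G : Type*} [CommGroup G] [TopologicalSpace G] [DiscreteTopology G]
    [MeasurableSpace (PontryaginDual G)] [BorelSpace (PontryaginDual G)]
    (S : Set G) (hS : IsExpanding S) : SupportsKMF S := by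
  classical
  -- conditioned means, indexed by Bohr sets
  let I := {B : Set G // IsBohrSet B}
  have hex : ∀ B : I, ∃ ν : Mean G, ν.AnnihilatesContinuousMeasures ∧
      ∀ C : Set G, S ∩ B.1 ⊆ C → ν.toFun (ind C) = 1 := by
    rintro ⟨B, hB⟩
    obtain ⟨m, hm, hpos⟩ := hS.exists_mean hB
    refine ⟨m.cond _ hpos, ?_, fun C hC => m.cond_ind hpos hC⟩
    intro μ h1 h2 hμ f hf
    exact m.cond_eq_zero hpos (fun g => norm_nonneg (fourier μ f g)) (hm.annihilates μ h1 h2 hμ f hf)
  choose ν hν hνS using hex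
  -- the filter of small Bohr sets
  have huniv : IsBohrSet (Set.univ : Set G) :=
    ⟨0, Fin.elim0, 1, one_pos, by ext g; simp⟩
  let F : Filter I := ⨅ B : I, 𝓟 {C : I | C.1 ⊆ B.1}
  have : Nonempty I := ⟨⟨_, huniv⟩⟩
  have : F.NeBot := by
    refine iInf_neBot_of_directed ?_ ?_
    · intro B B'
      obtain ⟨C, hC, h1, h2⟩ := B.2.inter B'.2
      refine ⟨⟨C, hC⟩, ?_, ?_⟩
      · exact principal_mono.mpr fun D hD => Set.Subset.trans hD h1
      · exact principal_mono.mpr fun D hD => Set.Subset.trans hD h2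
    · intro B
      rw [principal_neBot_iff]
      exact ⟨B, Set.Subset.refl _⟩
  let U := Ultrafilter.of F
  have hU : ∀ B : I, ∀ᶠ C in (U : Filter I), C.1 ⊆ B.1 := by
    intro B
    have h1 : (U : Filter I) ≤ F := Ultrafilter.of_le F
    exact h1 (mem_iInf_of_mem B (mem_principal_self _))
  obtain ⟨M, hM⟩ := exists_limit_mean U ν
  refine ⟨M, ?_, ?_, ?_⟩
  · refine tendsto_nhds_unique (hM (ind S)) ?_
    have : (fun i => (ν i).toFun (ind S)) = fun _ => (1 : ℝ) :=
      funext fun B => hνS B S Set.inter_subset_left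
    rw [this]
    exact tendsto_const_nhds
  · intro μ h1 h2 hμ f hf
    refine tendsto_nhds_unique (hM _) ?_
    have : (fun i => (ν i).toFun (absFourier μ f)) = fun _ => (0 : ℝ) :=
      funext fun B => hν B μ h1 h2 hμ f hf
    rw [this]
    exact tendsto_const_nhds
  · intro B hB
    have : M.toFun (ind B) = 1 := by
      refine tendsto_nhds_unique (hM (ind B)) ?_
      refine (tendsto_congr' ?_).mpr tendsto_const_nhds
      filter_upwards [hU ⟨B, hB⟩] with C hC
      exact hνS C B (Set.inter_subset_right.trans hC)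
    rw [this]
    exact one_pos

end

end Pool.Agent.Results.MP_49446c_co.KMFMeans
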